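import Mathlib

set_option autoImplicit false

/-!
# Project MU (MP_753cb1_lc), module M5: linearity test and multiplicativity

`f : (W → ZMod 2) → ZMod 2` which is nearly additive, nearly multiplicative and nearly satisfies `f (A + 1) = f A + 1`
is near a coordinate.  The averaged version is `blr`.
-/

namespace Pool.Agent.helper34.MU

open Finset

section test

variable {G : Type} [AddCommGroup G] [Fintype G] [DecidableEq G]

theorem zne {u v w : ZMod 2} (h1 : u ≠ w) (h2 : v ≠ w) : u = v := by
  revert u v w
  decide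

theorem half (P : G → Prop) [DecidablePred P] (t : G) (h : ∀ B, P B ∨ P (B + t)) :
    Fintype.card G ≤ 2 * (univ.filter P).card := by
  have h1 : (univ : Finset G) ⊆ univ.filter P ∪ univ.filter (fun B => P (B + t)) := by
    intro B _
    rw [mem_union, mem_filter, mem_filter]
    rcases h B with h | h
    · exact Or.inl ⟨mem_univ _, h⟩
    · exact Or.inr ⟨mem_univ _, h⟩
  have h2 : (univ.filter (fun B => P (B + t))).card = (univ.filter P).card := by
    refine card_bij (fun B _ => B + t) ?_ ?_ ?_
    · intro B hB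
      rw [mem_filter] at hB ⊢
      exact ⟨mem_univ _, hB.2⟩
    · intro B _ B' _ h
      exact add_right_cancel h
    · intro B hB
      rw [mem_filter] at hB
      refine ⟨B - t, ?_, sub_add_cancel B t⟩
      rw [mem_filter, sub_add_cancel]
      exact ⟨mem_univ _, hB.2⟩
  have h3 := card_le_card h1
  have h4 := card_union_le (univ.filter P) (univ.filter (fun B => P (B + t)))
  rw [card_univ] at h3
  omega

variable (f : G → ZMod 2)

/-- the failures of additivity -/
def fa : ℕ := (univ.filter (fun p : G × G => f (p.1 + p.2) ≠ f p.1 + f p.2)).card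

/-- the corrected function -/
def gg (x : G) : ZMod 2 :=
  if Fintype.card G < 2 * (univ.filter (fun y => f (x + y) + f y = 1)).card then 1 else 0

/-- the number of disagreements with the majority -/
def mm (x : G) : ℕ := (univ.filter (fun y => gg f x ≠ f (x + y) + f y)).card

theorem mm_half (x : G) : 2 * mm f x ≤ Fintype.card G := by
  have h0 := card_filter_add_card_filter_not (s := (univ : Finset G)) (fun y => f (x + y) + f y = 1)
  rw [card_univ] at h0
  unfold mm gg
  split_ifs with h
  · have h1 : (univ.filter (fun y => (1 : ZMod 2) ≠ f (x + y) + f y)).card =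
        (univ.filter (fun y => ¬ f (x + y) + f y = 1)).card := by
      congr 1
      ext y
      rw [mem_filter, mem_filter]
      exact ⟨fun h => ⟨h.1, fun h' => h.2 h'.symm⟩, fun h => ⟨h.1, fun h' => h.2 h'.symm⟩⟩
    rw [h1]
    omega
  · have h1 : (univ.filter (fun y => (0 : ZMod 2) ≠ f (x + y) + f y)).card =
        (univ.filter (fun y => f (x + y) + f y = 1)).card := by
      congr 1
      ext y
      rw [mem_filter, mem_filter]
      have key : ∀ v : ZMod 2, (0 ≠ v) ↔ v = 1 := by decide
      rw [key]
    rw [h1]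
    omega

variable (two : ∀ x : G, x + x = 0)
include two

/-- the majority is large -/
theorem mm_le (x : G) : mm f x * Fintype.card G ≤ 4 * fa f := by
  have hh := mm_half f x
  have h0 := card_filter_add_card_filter_not (s := (univ : Finset G)) (fun y => gg f x ≠ f (x + y) + f y)
  rw [card_univ] at h0
  obtain ⟨m', hm'⟩ : ∃ m', m' = (univ.filter (fun y => ¬ (gg f x ≠ f (x + y) + f y))).card := ⟨_, rfl⟩
  rw [← hm'] at h0
  have h1 : mm f x * m' ≤ 2 * fa f := by
    rw [hm']
    unfold mm
    rw [← card_product]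
    have h2 : (univ.filter (fun y => gg f x ≠ f (x + y) + f y)) ×ˢ
        (univ.filter (fun y => ¬ (gg f x ≠ f (x + y) + f y))) ⊆
        univ.filter (fun p : G × G => f ((x + p.1) + (x + p.2)) ≠ f (x + p.1) + f (x + p.2)) ∪
        univ.filter (fun p : G × G => f (p.1 + p.2) ≠ f p.1 + f p.2) := by
      rintro ⟨y, z⟩ hp
      rw [mem_product, mem_filter, mem_filter] at hp
      rw [mem_union, mem_filter, mem_filter]
      obtain ⟨⟨-, hy⟩, -, hz⟩ := hp
      rw [not_not] at hz
      by_contra hcon
      push Not at hcon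
      have h3 := hcon.1 (mem_univ _)
      have h4 := hcon.2 (mem_univ _)
      have h5 : (x + y) + (x + z) = y + z := by
        have : (x + y) + (x + z) = (x + x) + (y + z) := by abel
        rw [this, two, zero_add]
      simp only at h3 h4 hy hz
      rw [h5, h4] at h3
      apply hy
      rw [hz]
      have key : ∀ a b c d : ZMod 2, a + b = c + d → d + b = c + a := by decide
      exact key _ _ _ _ h3
    have h3 : (univ.filter (fun p : G × G => f ((x + p.1) + (x + p.2)) ≠ f (x + p.1) + f (x + p.2))).card = fa f := by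
      unfold fa
      refine card_bij (fun p _ => (x + p.1, x + p.2)) ?_ ?_ ?_
      · intro p hp
        rw [mem_filter] at hp ⊢
        exact ⟨mem_univ _, hp.2⟩
      · rintro ⟨a, b⟩ _ ⟨a', b'⟩ _ h
        have h1 := congrArg Prod.fst h
        have h2 := congrArg Prod.snd h
        exact Prod.ext (add_left_cancel h1) (add_left_cancel h2)
      · rintro ⟨a, b⟩ hp
        refine ⟨(x + a, x + b), ?_, ?_⟩
        · rw [mem_filter] at hp ⊢
          refine ⟨mem_univ _, ?_⟩
          have ha : x + (x + a) = a := by rw [← add_assoc, two, zero_add]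
          have hb : x + (x + b) = b := by rw [← add_assoc, two, zero_add]
          show f (x + (x + a) + (x + (x + b))) ≠ f (x + (x + a)) + f (x + (x + b))
          rw [ha, hb]
          exact hp.2
        · have ha : x + (x + a) = a := by rw [← add_assoc, two, zero_add]
          have hb : x + (x + b) = b := by rw [← add_assoc, two, zero_add]
          exact Prod.ext ha hb
    have h4 := (card_le_card h2).trans (card_union_le _ _)
    rw [h3] at h4
    have h5 : (univ.filter (fun p : G × G => f (p.1 + p.2) ≠ f p.1 + f p.2)).card = fa f := rfl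
    rw [h5] at h4
    omega
  have h2 : mm f x + m' = Fintype.card G := h0
  have h3 : Fintype.card G ≤ 2 * m' := by omega
  calc mm f x * Fintype.card G ≤ mm f x * (2 * m') := Nat.mul_le_mul_left _ h3
    _ = 2 * (mm f x * m') := by ring
    _ ≤ 4 * fa f := by omega

/-- the corrected function is additive -/
theorem gg_add (ha : 12 * fa f < Fintype.card G * Fintype.card G) (x x' : G) :
    gg f (x + x') = gg f x + gg f x' := by
  have h1 := mm_le f two x
  have h2 := mm_le f two x'
  have h3 := mm_le f two (x + x')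
  have hsum : mm f x + mm f x' + mm f (x + x') < Fintype.card G := by
    by_contra hcon
    push Not at hcon
    have := Nat.mul_le_mul_right (Fintype.card G) hcon
    nlinarith
  have hc2 : (univ.filter (fun y => gg f x' ≠ f (x' + (x + y)) + f (x + y))).card = mm f x' := by
    unfold mm
    refine card_bij (fun y _ => x + y) ?_ ?_ ?_
    · intro y hy
      rw [mem_filter] at hy ⊢
      exact ⟨mem_univ _, hy.2⟩
    · intro y _ y' _ h
      exact add_left_cancel h
    · intro y hy
      refine ⟨x + y, ?_, ?_⟩
      · rw [mem_filter] at hy ⊢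
        have ha : x + (x + y) = y := by rw [← add_assoc, two, zero_add]
        rw [ha]
        exact ⟨mem_univ _, hy.2⟩
      · show x + (x + y) = y
        rw [← add_assoc, two, zero_add]
  obtain ⟨y, hy⟩ : ∃ y : G, y ∉ univ.filter (fun y => gg f x ≠ f (x + y) + f y) ∪
      univ.filter (fun y => gg f x' ≠ f (x' + (x + y)) + f (x + y)) ∪
      univ.filter (fun y => gg f (x + x') ≠ f ((x + x') + y) + f y) := by
    by_contra hcon
    push Not at hcon
    have h4 : (univ : Finset G) ⊆ _ := fun y _ => hcon y
    have h5 := (card_le_card h4).trans ((card_union_le _ _).trans (Nat.add_le_add_right (card_union_le _ _) _))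
    rw [hc2, card_univ] at h5
    have h6 : (univ.filter (fun y => gg f x ≠ f (x + y) + f y)).card = mm f x := rfl
    have h7 : (univ.filter (fun y => gg f (x + x') ≠ f ((x + x') + y) + f y)).card = mm f (x + x') := rfl
    rw [h6, h7] at h5
    omega
  rw [mem_union, mem_union, mem_filter, mem_filter, mem_filter] at hy
  push Not at hy
  obtain ⟨⟨e1, e2⟩, e3⟩ := hy
  have e1 := e1 (mem_univ _)
  have e2 := e2 (mem_univ _)
  have e3 := e3 (mem_univ _)
  have e4 : x' + (x + y) = (x + x') + y := by abel
  rw [e4] at e2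
  rw [e1, e2, e3]
  have key : ∀ a b c : ZMod 2, a + b = (c + b) + (a + c) := by decide
  exact key _ _ _

omit two in
/-- `f` and the corrected function are near -/
theorem dist_le : (univ.filter (fun x => f x ≠ gg f x)).card * Fintype.card G ≤ 2 * fa f := by
  have h1 : ∀ x ∈ univ.filter (fun x => f x ≠ gg f x),
      Fintype.card G ≤ 2 * (univ.filter (fun y => f (x + y) ≠ f x + f y)).card := by
    intro x hx
    rw [mem_filter] at hx
    have h2 := mm_half f x
    have h0 := card_filter_add_card_filter_not (s := (univ : Finset G)) (fun y => gg f x ≠ f (x + y) + f y)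
    rw [card_univ] at h0
    have h3 : (univ.filter (fun y => ¬ (gg f x ≠ f (x + y) + f y))).card ≤
        (univ.filter (fun y => f (x + y) ≠ f x + f y)).card := by
      refine card_le_card ?_
      intro y hy
      rw [mem_filter, not_not] at hy
      rw [mem_filter]
      refine ⟨mem_univ _, ?_⟩
      intro h
      apply hx.2
      rw [hy.2, h]
      have key : ∀ a b : ZMod 2, a = a + b + b := by decide
      exact key _ _
    have h4 : mm f x = (univ.filter (fun y => gg f x ≠ f (x + y) + f y)).card := rfl
    omega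
  have h2 : fa f = ∑ x : G, (univ.filter (fun y => f (x + y) ≠ f x + f y)).card := by
    unfold fa
    rw [card_filter, ← univ_product_univ, sum_product]
    refine sum_congr rfl (fun x _ => ?_)
    rw [card_filter]
  calc (univ.filter (fun x => f x ≠ gg f x)).card * Fintype.card G
      = ∑ _x ∈ univ.filter (fun x => f x ≠ gg f x), Fintype.card G := by rw [sum_const, smul_eq_mul]
    _ ≤ ∑ x ∈ univ.filter (fun x => f x ≠ gg f x), 2 * (univ.filter (fun y => f (x + y) ≠ f x + f y)).card :=
        sum_le_sum h1
    _ ≤ ∑ x : G, 2 * (univ.filter (fun y => f (x + y) ≠ f x + f y)).card :=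
        sum_le_sum_of_subset (filter_subset _ _)
    _ = 2 * fa f := by rw [← mul_sum, h2]

end test

section coord

variable {W : Type} [Fintype W] [DecidableEq W]

theorem two_fun (x : W → ZMod 2) : x + x = 0 := by
  funext i
  exact CharTwo.add_self_eq_zero (x i)

/-- the failures of multiplicativity -/
def fb (f : (W → ZMod 2) → ZMod 2) : ℕ :=
  (univ.filter (fun p : (W → ZMod 2) × (W → ZMod 2) × (W → ZMod 2) =>
    f (p.1 * p.2.1 + p.2.2) + f p.2.2 ≠ f p.1 * f p.2.1)).card

/-- the failures of `f (A + 1) = f A + 1` -/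
def fc (f : (W → ZMod 2) → ZMod 2) : ℕ := (univ.filter (fun A : W → ZMod 2 => f (A + 1) ≠ f A + 1)).card

/-- the failures of multiplicativity of the corrected function -/
theorem bad_le (f : (W → ZMod 2) → ZMod 2) :
    (univ.filter (fun p : (W → ZMod 2) × (W → ZMod 2) => gg f (p.1 * p.2) ≠ gg f p.1 * gg f p.2)).card *
      Fintype.card (W → ZMod 2) ≤ 8 * fa f * Fintype.card (W → ZMod 2) + fb f := by
  obtain ⟨N, hN⟩ : ∃ N, N = Fintype.card (W → ZMod 2) := ⟨_, rfl⟩
  have hN0 : 0 < N := by rw [hN]; exact Fintype.card_pos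
  obtain ⟨d, hd⟩ : ∃ d, d = (univ.filter (fun x => f x ≠ gg f x)).card := ⟨_, rfl⟩
  have hdist := dist_le f
  rw [← hd, ← hN] at hdist
  rw [← hN]
  have h1 : (univ.filter (fun p : (W → ZMod 2) × (W → ZMod 2) => gg f (p.1 * p.2) ≠ gg f p.1 * gg f p.2)) ×ˢ
      (univ : Finset (W → ZMod 2)) ⊆
      (univ.filter (fun q : ((W → ZMod 2) × (W → ZMod 2)) × (W → ZMod 2) =>
        gg f (q.1.1 * q.1.2) ≠ f (q.1.1 * q.1.2 + q.2) + f q.2)) ∪
      (univ.filter (fun q : ((W → ZMod 2) × (W → ZMod 2)) × (W → ZMod 2) =>
        f (q.1.1 * q.1.2 + q.2) + f q.2 ≠ f q.1.1 * f q.1.2)) ∪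
      (univ.filter (fun q : ((W → ZMod 2) × (W → ZMod 2)) × (W → ZMod 2) => f q.1.1 ≠ gg f q.1.1)) ∪
      (univ.filter (fun q : ((W → ZMod 2) × (W → ZMod 2)) × (W → ZMod 2) => f q.1.2 ≠ gg f q.1.2)) := by
    rintro ⟨⟨A, B⟩, C⟩ hp
    rw [mem_product, mem_filter] at hp
    simp only [mem_union, mem_filter, mem_univ, true_and]
    by_contra hcon
    push Not at hcon
    obtain ⟨⟨⟨e1, e2⟩, e3⟩, e4⟩ := hcon
    apply hp.1.2
    show gg f (A * B) = gg f A * gg f B
    rw [e1, e2, e3, e4]
  have h2 := (card_le_card h1).trans ((card_union_le _ _).trans (Nat.add_le_add_right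
    ((card_union_le _ _).trans (Nat.add_le_add_right (card_union_le _ _) _)) _))
  rw [card_product, card_univ, ← hN] at h2
  -- first term
  have t1 : (univ.filter (fun q : ((W → ZMod 2) × (W → ZMod 2)) × (W → ZMod 2) =>
        gg f (q.1.1 * q.1.2) ≠ f (q.1.1 * q.1.2 + q.2) + f q.2)).card ≤ 4 * fa f * N := by
    have e1 : (univ.filter (fun q : ((W → ZMod 2) × (W → ZMod 2)) × (W → ZMod 2) =>
        gg f (q.1.1 * q.1.2) ≠ f (q.1.1 * q.1.2 + q.2) + f q.2)).card =
        ∑ p : (W → ZMod 2) × (W → ZMod 2), mm f (p.1 * p.2) := by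
      rw [card_filter, ← univ_product_univ, sum_product]
      refine sum_congr rfl (fun p _ => ?_)
      unfold mm
      rw [card_filter]
    rw [e1]
    refine Nat.le_of_mul_le_mul_right ?_ hN0
    rw [sum_mul]
    calc ∑ p : (W → ZMod 2) × (W → ZMod 2), mm f (p.1 * p.2) * N
        ≤ ∑ _p : (W → ZMod 2) × (W → ZMod 2), 4 * fa f :=
          sum_le_sum (fun p _ => by rw [hN]; exact mm_le f two_fun _)
      _ = 4 * fa f * N * N := by
          rw [sum_const, card_univ, Fintype.card_prod, ← hN, smul_eq_mul]; ring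
  have t2 : (univ.filter (fun q : ((W → ZMod 2) × (W → ZMod 2)) × (W → ZMod 2) =>
        f (q.1.1 * q.1.2 + q.2) + f q.2 ≠ f q.1.1 * f q.1.2)).card = fb f := by
    unfold fb
    refine card_bij (fun q _ => (q.1.1, q.1.2, q.2)) ?_ ?_ ?_
    · intro q hq
      rw [mem_filter] at hq ⊢
      exact ⟨mem_univ _, hq.2⟩
    · rintro ⟨⟨a, b⟩, c⟩ _ ⟨⟨a', b'⟩, c'⟩ _ h
      simp only [Prod.mk.injEq] at h ⊢
      exact ⟨⟨h.1, h.2.1⟩, h.2.2⟩
    · rintro ⟨a, b, c⟩ hq
      rw [mem_filter] at hq
      exact ⟨((a, b), c), by rw [mem_filter]; exact ⟨mem_univ _, hq.2⟩, rfl⟩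
  have t3 : (univ.filter (fun q : ((W → ZMod 2) × (W → ZMod 2)) × (W → ZMod 2) => f q.1.1 ≠ gg f q.1.1)).card =
      d * N * N := by
    have e1 : (univ.filter (fun q : ((W → ZMod 2) × (W → ZMod 2)) × (W → ZMod 2) => f q.1.1 ≠ gg f q.1.1)) =
        ((univ.filter (fun x => f x ≠ gg f x)) ×ˢ univ) ×ˢ univ := by
      ext ⟨⟨a, b⟩, c⟩
      simp
    rw [e1, card_product, card_product, card_univ, ← hN, ← hd]
  have t4 : (univ.filter (fun q : ((W → ZMod 2) × (W → ZMod 2)) × (W → ZMod 2) => f q.1.2 ≠ gg f q.1.2)).card =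
      N * d * N := by
    have e1 : (univ.filter (fun q : ((W → ZMod 2) × (W → ZMod 2)) × (W → ZMod 2) => f q.1.2 ≠ gg f q.1.2)) =
        (univ ×ˢ (univ.filter (fun x => f x ≠ gg f x))) ×ˢ univ := by
      ext ⟨⟨a, b⟩, c⟩
      simp
    rw [e1, card_product, card_product, card_univ, ← hN, ← hd]
  rw [t2, t3, t4] at h2
  have h3 : d * N * N ≤ 2 * fa f * N := Nat.mul_le_mul_right _ hdist
  have h4 : N * d * N ≤ 2 * fa f * N := by
    have : N * d * N = d * N * N := by ring
    rw [this]; exact h3
  calc _ ≤ _ := h2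
    _ ≤ 4 * fa f * N + fb f + 2 * fa f * N + 2 * fa f * N := by
        gcongr
    _ = 8 * fa f * N + fb f := by ring

/-- **one function** -/
theorem single_fun [Nonempty W] (f : (W → ZMod 2) → ZMod 2) : ∃ i : W,
    (univ.filter (fun A : W → ZMod 2 => f A ≠ A i)).card * Fintype.card (W → ZMod 2) * Fintype.card (W → ZMod 2) ≤
      100 * (fa f * Fintype.card (W → ZMod 2) + fb f +
        fc f * Fintype.card (W → ZMod 2) * Fintype.card (W → ZMod 2)) := by
  obtain ⟨N, hN⟩ : ∃ N, N = Fintype.card (W → ZMod 2) := ⟨_, rfl⟩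
  have hN0 : 0 < N := by rw [hN]; exact Fintype.card_pos
  rw [← hN]
  have hcard : ∀ i, (univ.filter (fun A : W → ZMod 2 => f A ≠ A i)).card ≤ N := by
    intro i
    rw [hN, ← card_univ]
    exact card_le_card (filter_subset _ _)
  by_cases hbad : N * N * N ≤ 100 * (fa f * N + fb f + fc f * N * N)
  · obtain ⟨i⟩ := (inferInstance : Nonempty W)
    refine ⟨i, le_trans ?_ hbad⟩
    exact Nat.mul_le_mul_right _ (Nat.mul_le_mul_right _ (hcard i))
  push Not at hbad
  have ha : 12 * fa f < N * N := by
    have h1 : 100 * (fa f * N) < N * N * N := by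
      have : 100 * (fa f * N) ≤ 100 * (fa f * N + fb f + fc f * N * N) := by
        gcongr
        omega
      omega
    have h2 : 100 * fa f < N * N := by
      by_contra hcon
      push Not at hcon
      have := Nat.mul_le_mul_right N hcon
      nlinarith
    omega
  have hadd : ∀ x x' : W → ZMod 2, gg f (x + x') = gg f x + gg f x' :=
    gg_add f two_fun (by rw [← hN]; exact ha)
  let g : (W → ZMod 2) →+ ZMod 2 := AddMonoidHom.mk' (gg f) hadd
  have hg : ∀ x, g x = gg f x := fun _ => rfl
  obtain ⟨d, hd⟩ : ∃ d, d = (univ.filter (fun x => f x ≠ gg f x)).card := ⟨_, rfl⟩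
  have hdist := dist_le f
  rw [← hd, ← hN] at hdist
  have hmul := bad_le f
  rw [← hN] at hmul
  by_cases hex : ∃ i, g (Pi.single i 1) = 1
  · obtain ⟨i, hi⟩ := hex
    by_cases hun : ∃ i', i' ≠ i ∧ g (Pi.single i' 1) = 1
    · -- two coordinates: impossible
      exfalso
      obtain ⟨i', hne, hi'⟩ := hun
      have key : N * N ≤ 4 * (univ.filter (fun p : (W → ZMod 2) × (W → ZMod 2) =>
          gg f (p.1 * p.2) ≠ gg f p.1 * gg f p.2)).card := by
        have h1 : N ≤ 2 * (univ.filter (fun A : W → ZMod 2 => A i ≠ A i')).card := by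
          rw [hN]
          refine half (fun A : W → ZMod 2 => A i ≠ A i') (Pi.single i 1) ?_
          intro A
          by_cases h : A i = A i'
          · right
            show (A + Pi.single i 1 : W → ZMod 2) i ≠ (A + Pi.single i 1 : W → ZMod 2) i'
            rw [Pi.add_apply, Pi.add_apply, Pi.single_eq_same, Pi.single_eq_of_ne hne, h, add_zero]
            have key : ∀ v : ZMod 2, v + 1 ≠ v := by decide
            exact key _
          · exact Or.inl h
        have h2 : ∀ A ∈ univ.filter (fun A : W → ZMod 2 => A i ≠ A i'),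
            N ≤ 2 * (univ.filter (fun B : W → ZMod 2 => gg f (A * B) ≠ gg f A * gg f B)).card := by
          intro A hA
          rw [mem_filter] at hA
          -- the functional `B ↦ g (A B) + g A g B`
          have hsingle : ∀ k, g (Pi.single k 1) = 1 → A k + g A ≠ 0 →
              N ≤ 2 * (univ.filter (fun B : W → ZMod 2 => gg f (A * B) ≠ gg f A * gg f B)).card := by
            intro k hk hk'
            rw [hN]
            refine half (fun B : W → ZMod 2 => gg f (A * B) ≠ gg f A * gg f B) (Pi.single k 1) ?_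
            intro B
            by_cases h : gg f (A * B) = gg f A * gg f B
            · right
              show gg f (A * (B + Pi.single k 1)) ≠ gg f A * gg f (B + Pi.single k 1)
              rw [mul_add, hadd, hadd, h, mul_add]
              have h3 : A * Pi.single k 1 = A k • (Pi.single k 1 : W → ZMod 2) := by
                funext j
                by_cases hj : j = k
                · subst hj; simp
                · simp [hj]
              have h4 : gg f (A * Pi.single k 1) = A k := by
                rw [h3]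
                have h5 : ∀ v : ZMod 2, gg f (v • (Pi.single k 1 : W → ZMod 2)) = v := by
                  intro v
                  have h6 : v = 0 ∨ v = 1 := by revert v; decide
                  rcases h6 with h6 | h6
                  · rw [h6, zero_smul, ← hg, map_zero]
                  · rw [h6, one_smul, ← hg, hk]
                exact h5 _
              rw [h4]
              have h5 : gg f (Pi.single k 1) = 1 := hk
              rw [h5]
              have h6 : A k + gg f A ≠ 0 := hk'
              intro h7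
              apply h6
              have key : ∀ a b c : ZMod 2, a + b = a + c * 1 → b + c = 0 := by decide
              exact key _ _ _ h7
            · exact Or.inl h
          by_cases h3 : A i + g A = 0
          · refine hsingle i' hi' ?_
            intro h4
            apply hA.2
            have key : ∀ a b c : ZMod 2, a + c = 0 → b + c = 0 → a = b := by decide
            exact key _ _ _ h3 h4
          · exact hsingle i hi h3
        have h3 : (univ.filter (fun p : (W → ZMod 2) × (W → ZMod 2) => gg f (p.1 * p.2) ≠ gg f p.1 * gg f p.2)).card =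
            ∑ A : W → ZMod 2, (univ.filter (fun B : W → ZMod 2 => gg f (A * B) ≠ gg f A * gg f B)).card := by
          rw [card_filter, ← univ_product_univ, sum_product]
          refine sum_congr rfl (fun x _ => ?_)
          rw [card_filter]
        rw [h3]
        calc N * N ≤ 2 * (univ.filter (fun A : W → ZMod 2 => A i ≠ A i')).card * N := Nat.mul_le_mul_right _ h1
          _ = 2 * ∑ _A ∈ univ.filter (fun A : W → ZMod 2 => A i ≠ A i'), N := by rw [sum_const, smul_eq_mul]; ring
          _ ≤ 2 * ∑ A ∈ univ.filter (fun A : W → ZMod 2 => A i ≠ A i'),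
              2 * (univ.filter (fun B : W → ZMod 2 => gg f (A * B) ≠ gg f A * gg f B)).card :=
              Nat.mul_le_mul_left _ (sum_le_sum h2)
          _ ≤ 2 * ∑ A : W → ZMod 2,
              2 * (univ.filter (fun B : W → ZMod 2 => gg f (A * B) ≠ gg f A * gg f B)).card :=
              Nat.mul_le_mul_left _ (sum_le_sum_of_subset (filter_subset _ _))
          _ = 4 * ∑ A : W → ZMod 2, (univ.filter (fun B : W → ZMod 2 => gg f (A * B) ≠ gg f A * gg f B)).card := by
              rw [← mul_sum]; ring
      obtain ⟨bd, hbd⟩ : ∃ bd, bd = (univ.filter (fun p : (W → ZMod 2) × (W → ZMod 2) =>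
          gg f (p.1 * p.2) ≠ gg f p.1 * gg f p.2)).card := ⟨_, rfl⟩
      rw [← hbd] at key hmul
      have h1 : N * N * N ≤ 4 * (8 * fa f * N + fb f) := by
        calc N * N * N ≤ 4 * bd * N := Nat.mul_le_mul_right _ key
          _ = 4 * (bd * N) := by ring
          _ ≤ 4 * (8 * fa f * N + fb f) := Nat.mul_le_mul_left _ hmul
      have h2 : 4 * (8 * fa f * N + fb f) ≤ 100 * (fa f * N + fb f + fc f * N * N) := by
        nlinarith [Nat.zero_le (fa f * N), Nat.zero_le (fb f), Nat.zero_le (fc f * N * N)]
      omega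
    · -- exactly one coordinate
      push Not at hun
      have hgi : g = Pi.evalAddMonoidHom (fun _ : W => ZMod 2) i := by
        refine AddMonoidHom.functions_ext _ _ _ (fun k x => ?_)
        have hx : x = 0 ∨ x = 1 := by revert x; decide
        rcases hx with hx | hx
        · subst hx
          rw [Pi.single_zero, map_zero, map_zero]
        · subst hx
          by_cases hk : k = i
          · subst hk
            rw [hi]
            simp
          · have h1 := hun k hk
            have h2 : g (Pi.single k 1) = 0 := by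
              have key : ∀ v : ZMod 2, v ≠ 1 → v = 0 := by decide
              exact key _ h1
            rw [h2]
            have h3 : (Pi.single k (1 : ZMod 2) : W → ZMod 2) i = 0 := Pi.single_eq_of_ne (Ne.symm hk) _
            exact h3.symm
      refine ⟨i, ?_⟩
      have h1 : (univ.filter (fun A : W → ZMod 2 => f A ≠ A i)).card = d := by
        rw [hd]
        congr 1
        ext A
        have h2 : gg f A = A i := by
          have := DFunLike.congr_fun hgi A
          exact this
        rw [mem_filter, mem_filter, h2]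
      rw [h1]
      have h2 : d * N * N ≤ 2 * fa f * N := Nat.mul_le_mul_right _ hdist
      nlinarith [Nat.zero_le (fa f * N), Nat.zero_le (fb f), Nat.zero_le (fc f * N * N)]
  · -- no coordinate: impossible
    exfalso
    push Not at hex
    have hg0 : g = 0 := by
      refine AddMonoidHom.functions_ext _ _ _ (fun k x => ?_)
      have hx : x = 0 ∨ x = 1 := by revert x; decide
      rcases hx with hx | hx
      · subst hx
        rw [Pi.single_zero, map_zero, map_zero]
      · subst hx
        have key : ∀ v : ZMod 2, v ≠ 1 → v = 0 := by decide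
        exact key _ (hex k)
    have hgg0 : ∀ A, gg f A = 0 := fun A => by
      have := DFunLike.congr_fun hg0 A
      exact this
    have h1 : (univ : Finset (W → ZMod 2)) ⊆ univ.filter (fun A => f (A + 1) ≠ f A + 1) ∪
        univ.filter (fun A => f A ≠ gg f A) ∪ univ.filter (fun A => f (A + 1) ≠ gg f (A + 1)) := by
      intro A _
      simp only [mem_union, mem_filter, mem_univ, true_and]
      by_contra hcon
      push Not at hcon
      obtain ⟨⟨e1, e2⟩, e3⟩ := hcon
      rw [hgg0] at e2 e3
      rw [e2, e3] at e1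
      revert e1
      decide
    have h2 := (card_le_card h1).trans ((card_union_le _ _).trans (Nat.add_le_add_right (card_union_le _ _) _))
    rw [card_univ, ← hN] at h2
    have h3 : (univ.filter (fun A : W → ZMod 2 => f (A + 1) ≠ gg f (A + 1))).card = d := by
      rw [hd]
      refine card_bij (fun A _ => A + 1) ?_ ?_ ?_
      · intro A hA
        rw [mem_filter] at hA ⊢
        exact ⟨mem_univ _, hA.2⟩
      · intro A _ A' _ h
        exact add_right_cancel h
      · intro A hA
        refine ⟨A - 1, ?_, sub_add_cancel A 1⟩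
        rw [mem_filter] at hA ⊢
        rw [sub_add_cancel]
        exact ⟨mem_univ _, hA.2⟩
    have h4 : (univ.filter (fun A : W → ZMod 2 => f (A + 1) ≠ f A + 1)).card = fc f := rfl
    rw [h3, h4, ← hd] at h2
    have h5 : N * N * N ≤ (fc f + d + d) * N * N := Nat.mul_le_mul_right _ (Nat.mul_le_mul_right _ h2)
    have h6 : d * N * N ≤ 2 * fa f * N := Nat.mul_le_mul_right _ hdist
    nlinarith [Nat.zero_le (fa f * N), Nat.zero_le (fb f), Nat.zero_le (fc f * N * N)]

end coord

/-- **M5.** -/
theorem blr {W Y : Type} [Fintype W] [DecidableEq W] [Nonempty W] [Fintype Y] [DecidableEq Y]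
    (θ : (W → ZMod 2) → Y → ZMod 2) (ε : ℝ)
    (h1 : ∑ A : W → ZMod 2, ∑ B : W → ZMod 2,
      ((univ.filter fun j => θ (A + B) j ≠ θ A j + θ B j).card : ℝ) ≤
        ε * Fintype.card Y * (Fintype.card (W → ZMod 2) : ℝ) ^ 2)
    (h2 : ∑ A : W → ZMod 2, ∑ B : W → ZMod 2, ∑ C : W → ZMod 2,
      ((univ.filter fun j => θ (A * B + C) j + θ C j ≠ θ A j * θ B j).card : ℝ) ≤
        ε * Fintype.card Y * (Fintype.card (W → ZMod 2) : ℝ) ^ 3)
    (h3 : ∑ A : W → ZMod 2, ((univ.filter fun j => θ (A + 1) j ≠ θ A j + 1).card : ℝ) ≤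
        ε * Fintype.card Y * Fintype.card (W → ZMod 2)) :
    ∃ h : Y → W, ∑ A : W → ZMod 2, ((univ.filter fun j => θ A j ≠ A (h j)).card : ℝ) ≤
        1000 * ε * Fintype.card Y * Fintype.card (W → ZMod 2) := by
  choose h hh using fun j : Y => single_fun (fun A => θ A j)
  refine ⟨h, ?_⟩
  obtain ⟨N, hN⟩ : ∃ N : ℕ, N = Fintype.card (W → ZMod 2) := ⟨_, rfl⟩
  have hN0 : 0 < N := by rw [hN]; exact Fintype.card_pos
  have hNr : (0 : ℝ) < N := by exact_mod_cast hN0
  simp only [← hN] at hh h1 h2 h3 ⊢
  -- exchange of sums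
  have e1 : ∑ A : W → ZMod 2, ∑ B : W → ZMod 2, ((univ.filter fun j => θ (A + B) j ≠ θ A j + θ B j).card : ℝ) =
      ∑ j : Y, (fa (fun A => θ A j) : ℝ) := by
    have e : ∀ j : Y, (fa (fun A => θ A j) : ℝ) = ∑ A : W → ZMod 2, ∑ B : W → ZMod 2,
        (if θ (A + B) j ≠ θ A j + θ B j then (1 : ℝ) else 0) := by
      intro j
      unfold fa
      rw [card_filter]
      simp only [Fintype.sum_prod_type]
      push_cast
      rfl
    simp only [e]
    calc ∑ A : W → ZMod 2, ∑ B : W → ZMod 2, ((univ.filter fun j => θ (A + B) j ≠ θ A j + θ B j).card : ℝ)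
        = ∑ A : W → ZMod 2, ∑ B : W → ZMod 2, ∑ j : Y,
          (if θ (A + B) j ≠ θ A j + θ B j then (1 : ℝ) else 0) := by
          refine sum_congr rfl (fun A _ => sum_congr rfl (fun B _ => ?_))
          rw [card_filter]
          push_cast
          rfl
      _ = ∑ A : W → ZMod 2, ∑ j : Y, ∑ B : W → ZMod 2,
          (if θ (A + B) j ≠ θ A j + θ B j then (1 : ℝ) else 0) :=
          sum_congr rfl (fun A _ => sum_comm)
      _ = _ := sum_comm
  have e2 : ∑ A : W → ZMod 2, ∑ B : W → ZMod 2, ∑ C : W → ZMod 2,
      ((univ.filter fun j => θ (A * B + C) j + θ C j ≠ θ A j * θ B j).card : ℝ) =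
      ∑ j : Y, (fb (fun A => θ A j) : ℝ) := by
    have e : ∀ j : Y, (fb (fun A => θ A j) : ℝ) = ∑ A : W → ZMod 2, ∑ B : W → ZMod 2, ∑ C : W → ZMod 2,
        (if θ (A * B + C) j + θ C j ≠ θ A j * θ B j then (1 : ℝ) else 0) := by
      intro j
      unfold fb
      rw [card_filter]
      simp only [Fintype.sum_prod_type]
      push_cast
      rfl
    simp only [e]
    calc ∑ A : W → ZMod 2, ∑ B : W → ZMod 2, ∑ C : W → ZMod 2,
          ((univ.filter fun j => θ (A * B + C) j + θ C j ≠ θ A j * θ B j).card : ℝ)
        = ∑ A : W → ZMod 2, ∑ B : W → ZMod 2, ∑ C : W → ZMod 2, ∑ j : Y,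
          (if θ (A * B + C) j + θ C j ≠ θ A j * θ B j then (1 : ℝ) else 0) := by
          refine sum_congr rfl (fun A _ => sum_congr rfl (fun B _ => sum_congr rfl (fun C _ => ?_)))
          rw [card_filter]
          push_cast
          rfl
      _ = ∑ A : W → ZMod 2, ∑ B : W → ZMod 2, ∑ j : Y, ∑ C : W → ZMod 2,
          (if θ (A * B + C) j + θ C j ≠ θ A j * θ B j then (1 : ℝ) else 0) :=
          sum_congr rfl (fun A _ => sum_congr rfl (fun B _ => sum_comm))
      _ = ∑ A : W → ZMod 2, ∑ j : Y, ∑ B : W → ZMod 2, ∑ C : W → ZMod 2,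
          (if θ (A * B + C) j + θ C j ≠ θ A j * θ B j then (1 : ℝ) else 0) :=
          sum_congr rfl (fun A _ => sum_comm)
      _ = _ := sum_comm
  have e3 : ∑ A : W → ZMod 2, ((univ.filter fun j => θ (A + 1) j ≠ θ A j + 1).card : ℝ) =
      ∑ j : Y, (fc (fun A => θ A j) : ℝ) := by
    have e : ∀ j : Y, (fc (fun A => θ A j) : ℝ) = ∑ A : W → ZMod 2,
        (if θ (A + 1) j ≠ θ A j + 1 then (1 : ℝ) else 0) := by
      intro j
      unfold fc
      rw [card_filter]
      push_cast
      rfl
    simp only [e]
    refine Eq.trans ?_ sum_comm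
    refine sum_congr rfl (fun A _ => ?_)
    rw [card_filter]
    push_cast
    rfl
  have e4 : ∑ A : W → ZMod 2, ((univ.filter fun j => θ A j ≠ A (h j)).card : ℝ) =
      ∑ j : Y, ((univ.filter (fun A : W → ZMod 2 => θ A j ≠ A (h j))).card : ℝ) := by
    have e : ∀ j : Y, ((univ.filter (fun A : W → ZMod 2 => θ A j ≠ A (h j))).card : ℝ) = ∑ A : W → ZMod 2,
        (if θ A j ≠ A (h j) then (1 : ℝ) else 0) := by
      intro j
      rw [card_filter]
      push_cast
      rfl
    simp only [e]
    refine Eq.trans ?_ sum_comm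
    refine sum_congr rfl (fun A _ => ?_)
    rw [card_filter]
    push_cast
    rfl
  rw [e1] at h1
  rw [e2] at h2
  rw [e3] at h3
  rw [e4]
  have hnn : 0 ≤ ε * Fintype.card Y := by
    have h4 : (0 : ℝ) ≤ ∑ j : Y, (fc (fun A => θ A j) : ℝ) := sum_nonneg (fun _ _ => by positivity)
    have h5 : 0 ≤ ε * Fintype.card Y * N := h4.trans h3
    by_contra hcon
    push Not at hcon
    have := mul_neg_of_neg_of_pos hcon hNr
    linarith
  have hj : ∀ j : Y, ((univ.filter (fun A : W → ZMod 2 => θ A j ≠ A (h j))).card : ℝ) * N * N ≤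
      100 * ((fa (fun A => θ A j) : ℝ) * N + fb (fun A => θ A j) + (fc (fun A => θ A j) : ℝ) * N * N) := by
    intro j
    exact_mod_cast hh j
  have hsum : (∑ j : Y, ((univ.filter (fun A : W → ZMod 2 => θ A j ≠ A (h j))).card : ℝ)) * N * N ≤
      300 * (ε * Fintype.card Y) * N ^ 3 := by
    rw [sum_mul, sum_mul]
    calc ∑ j : Y, ((univ.filter (fun A : W → ZMod 2 => θ A j ≠ A (h j))).card : ℝ) * N * N
        ≤ ∑ j : Y, 100 * ((fa (fun A => θ A j) : ℝ) * N + fb (fun A => θ A j) + (fc (fun A => θ A j) : ℝ) * N * N) :=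
          sum_le_sum (fun j _ => hj j)
      _ = 100 * ((∑ j : Y, (fa (fun A => θ A j) : ℝ)) * N + (∑ j : Y, (fb (fun A => θ A j) : ℝ)) +
          (∑ j : Y, (fc (fun A => θ A j) : ℝ)) * N * N) := by
          rw [← mul_sum, sum_add_distrib, sum_add_distrib, sum_mul, sum_mul, sum_mul]
      _ ≤ 100 * ((ε * Fintype.card Y * N ^ 2) * N + ε * Fintype.card Y * N ^ 3 +
          (ε * Fintype.card Y * N) * N * N) := by gcongr
      _ = 300 * (ε * Fintype.card Y) * N ^ 3 := by ring
  have hfin : (∑ j : Y, ((univ.filter (fun A : W → ZMod 2 => θ A j ≠ A (h j))).card : ℝ)) ≤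
      300 * (ε * Fintype.card Y) * N := by
    have hNN : (0 : ℝ) < N * N := by positivity
    refine le_of_mul_le_mul_right ?_ hNN
    calc _ = (∑ j : Y, ((univ.filter (fun A : W → ZMod 2 => θ A j ≠ A (h j))).card : ℝ)) * N * N := by ring
      _ ≤ 300 * (ε * Fintype.card Y) * N ^ 3 := hsum
      _ = 300 * (ε * Fintype.card Y) * N * (N * N) := by ring
  refine hfin.trans ?_
  have : 0 ≤ ε * Fintype.card Y * N := by positivity
  nlinarith

end Pool.Agent.helper34.MU
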